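import Mathlib
import Pool.Agent.H.MP_681294_gt.F

namespace Pool.Agent.Results.MP_ff773e_gt.Yes

open MeasureTheory ProbabilityTheory Set
open scoped Pointwise ENNReal

/-- Euclidean `n`-space. -/
abbrev E (n : ℕ) : Type := EuclideanSpace ℝ (Fin n)

/-- The standard Gaussian measure of a set, as a real number. -/
noncomputable def gam {n : ℕ} (V : Set (E n)) : ℝ := (stdGaussian (E n) V).toReal

/-- The translate `V + x`. -/
def tr {n : ℕ} (V : Set (E n)) (x : E n) : Set (E n) := (fun v => v + x) '' V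

/-- The balancing constant of the Euclidean unit ball and `W`. -/
noncomputable def beta {n : ℕ} (W : Set (E n)) : ℝ≥0∞ :=
  ⨅ (C : ℝ) (_ : 0 < C) (_ : ∀ u : Fin n → E n, (∀ i, ‖u i‖ ≤ 1) →
    ∃ ε : Fin n → ℝ, (∀ i, ε i = 1 ∨ ε i = -1) ∧ ∑ i, ε i • u i ∈ C • W), ENNReal.ofReal C

open Pool.Agent.H.MP_681294_gt hiding E

theorem result : ∃ f : ℝ → ℝ, AntitoneOn f (Ioo 0 1) ∧ (∀ p ∈ Ioo (0 : ℝ) 1, 0 < f p) ∧
    ∀ n : ℕ, 1 ≤ n → ∀ V : Set (E n), IsCompact V → Convex ℝ V → (interior V).Nonempty →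
      ⨅ (x : E n) (_ : 0 ∈ interior (tr V x)), beta (tr V x) ≤
        ⨅ x : E n, ENNReal.ofReal (f (gam (tr V x))) := by
  obtain ⟨g, h1, h2, h3⟩ := core
  refine ⟨g, h1.mono fun _ h => h.1, fun p hp => h2 p hp.1, fun n _ V hV hc h0 =>
    le_iInf fun x => ?_⟩
  have cl : IsClosed (tr V x) := (hV.image (by fun_prop)).isClosed
  have cv : Convex ℝ (tr V x) := by simpa [tr, add_comm] using hc.translate x
  have q0 : 0 < (stdGaussian (E n)).real (tr V x) := gauss_pos (by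
    rw [show tr V x = Homeomorph.addRight x '' V from rfl, ← Homeomorph.image_interior]
    exact h0.image _)
  obtain ⟨z, hz⟩ : ∃ z, ∫ y in tr V x, y ∂stdGaussian (E n) =
      (stdGaussian (E n)).real (tr V x) • z := ⟨_, (smul_inv_smul₀ q0.ne' _).symm⟩
  have k : ∀ y, z + y ∈ tr V x → y ∈ tr V (x - z) := fun y ⟨v, hv, h⟩ =>
    ⟨v, hv, by simp only at h ⊢; rw [← add_sub_assoc, h, add_sub_cancel_left]⟩
  refine iInf₂_le_of_le (x - z) (mem_interior_iff_mem_nhds.2 (Filter.mem_of_superset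
    (Metric.closedBall_mem_nhds 0 (div_pos q0 four_pos)) fun y hy =>
      k y (ball_sub cl cv q0 hz _ (by simpa using hy)))) ?_
  refine iInf₂_le_of_le _ (h2 _ q0) (iInf_le_of_le (fun u hu => ?_) le_rfl)
  obtain ⟨ε, hε, h⟩ := h3 n _ z cl cv q0 hz u hu
  exact ⟨ε, hε, (mem_smul_set_iff_inv_smul_mem₀ (h2 _ q0).ne' _ _).2 (k _ h)⟩

end Pool.Agent.Results.MP_ff773e_gt.Yes
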